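import Pool.Agent.Lib.MP_a78e1f_lc.R.Iface

/-!
# Tree forcings over a complete Boolean algebra

`TX 𝒯 A` is the set of names over `A` of trees in the family `𝒯`, `tC 𝒯 A` the extension of `A` by
forcing with these trees.  For the family `IsMil` of superperfect trees this is
`MX A`, `MC A` of the library (by definition).
-/

universe u v w

open Cardinal Filter MeasureTheory

namespace Pool.Agent.Lib.MP_a78e1f_lc

open Pool.Agent.Lib.MP_100a6c_lc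
open Pool.Agent.Lib.MP_c5d73d_lc.F (pr)
open Pool.Agent.Lib.MP_e6fef2_lc
open Pool.Agent.Lib.MP_6d445e_gt

/-! ## Families of trees -/

/-- The properties of families of trees which are used for tree forcings. -/
structure TFam (𝒯 : Set (List ℕ) → Prop) : Prop where
  ne : ∃ T, 𝒯 T
  nil : ∀ T, 𝒯 T → [] ∈ T
  pre : ∀ T, 𝒯 T → ∀ t t', t <+: t' → t' ∈ T → t ∈ T
  ext : ∀ T, 𝒯 T → ∀ t ∈ T, ∃ k, t ++ [k] ∈ T
  res : ∀ T, 𝒯 T → ∀ t ∈ T, 𝒯 {t' | t' ∈ T ∧ Cmp t' t}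
  meas : MeasurableSet {x : List ℕ → Bool | 𝒯 {t | x t = true}}

/-- Laver trees of strictly increasing finite sequences. -/
structure IsLav (T : Set (List ℕ)) : Prop where
  pre : ∀ t t', t <+: t' → t' ∈ T → t ∈ T
  inc : ∀ t ∈ T, Inc t
  stem : ∃ s ∈ T, (∀ t ∈ T, Cmp t s) ∧ ∀ t ∈ T, s <+: t → ∀ m, ∃ k, m ≤ k ∧ t ++ [k] ∈ T

/-- Perfect trees of finite sequences of zeros and ones. -/
structure IsSac (T : Set (List ℕ)) : Prop where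
  nil : [] ∈ T
  pre : ∀ t t', t <+: t' → t' ∈ T → t ∈ T
  bin : ∀ t ∈ T, ∀ i ∈ t, i = 0 ∨ i = 1
  spl : ∀ t ∈ T, ∃ t', t <+: t' ∧ t' ++ [0] ∈ T ∧ t' ++ [1] ∈ T

/-! ## Forcing with names of trees -/

section

variable (𝒯 : Set (List ℕ) → Prop) (A : Type u) [CompleteBooleanAlgebra A]

/-- Names of trees in the family. -/
def TX : Type u := {τ : List ℕ → A // ∀ᶠ g in ae A, 𝒯 {t | τ t ∈ g}}

/-- Names of trees, ordered by inclusion. -/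
def TQ : BPre A (TX 𝒯 A) where
  le τ τ' := ⨅ t, τ.1 t ⇨ τ'.1 t
  refl τ := by simp
  trans τ τ' τ'' := by
    refine le_iInf fun t => ?_
    rw [le_himp_iff]
    have h1 : (⨅ t, τ.1 t ⇨ τ'.1 t) ⊓ (⨅ t, τ'.1 t ⇨ τ''.1 t) ⊓ τ.1 t ≤ τ'.1 t :=
      le_trans (le_inf (inf_le_left.trans (inf_le_left.trans (iInf_le _ t))) inf_le_right)
        himp_inf_le
    exact le_trans (le_inf (inf_le_left.trans (inf_le_right.trans (iInf_le _ t))) h1) himp_inf_le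

/-- The extension of `A` by the tree forcing. -/
abbrev tC : Type u := TwS (TQ 𝒯 A)

/-- The embedding of `A` into its extension. -/
noncomputable abbrev tE : A → tC 𝒯 A := twE (TQ 𝒯 A)

variable {𝒯 A}

/-- The Boolean value of: the name of a tree is in the generic filter. -/
noncomputable abbrev tG (τ : TX 𝒯 A) : tC 𝒯 A := twG (TQ 𝒯 A) τ

/-- The Boolean value of: `t ∈ τ` and all nodes of `τ` are comparable with `t`. -/
def tst (τ : TX 𝒯 A) (t : List ℕ) : A := τ.1 t ⊓ ⨅ t', ⨅ _ : ¬ Cmp t' t, (τ.1 t')ᶜ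

/-- The Boolean value of: `t` is an initial segment of the generic branch. -/
noncomputable def tND (t : List ℕ) : tC 𝒯 A := ⨆ τ : TX 𝒯 A, tE 𝒯 A (tst τ t) ⊓ tG τ

/-- The Boolean value of: `τ` forces `c`. -/
noncomputable def tfo (τ : TX 𝒯 A) (c : tC 𝒯 A) : A := (prj (tE 𝒯 A) (tG τ ⊓ cᶜ))ᶜ

/-! ## Laver forcing: pure decision -/

/-- The Boolean value of: `t ∈ τ`, all nodes of `τ` are comparable with `t`, and all nodes of `τ`
above `t` have infinitely many successors. -/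
def stL (τ : TX IsLav A) (t : List ℕ) : A :=
  tst τ t ⊓ ⨅ t', ⨅ _ : t <+: t', τ.1 t' ⇨ ⨅ m, ⨆ k, ⨆ _ : m ≤ k, τ.1 (t' ++ [k])

/-- The Boolean value of: some Laver tree with stem `t` forces `c`. -/
noncomputable def lpL (t : List ℕ) (c : tC IsLav A) : A := ⨆ τ : TX IsLav A, stL τ t ⊓ tfo τ c

end

/-- `A` is proper. -/
def Prp (A : Type u) [CompleteBooleanAlgebra A] : Prop :=
  ∀ᶠ N in club, ∀ a : A, In N a → a ≠ ⊥ → gen A N ⊓ a ≠ ⊥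

/-! ## Systems -/

section

variable (𝒯 : Set (List ℕ) → Prop) (ok : List ℕ → List ℕ → Prop) (A : Type u)
  [CompleteBooleanAlgebra A]

/-- `Λ D θ e` is the Boolean value (in the random extension) of: the condition `e` is positive at the
position `θ`, where `D` is the next dense set to be met.  Either the position goes down in a
well-founded order, or the dense set is met.  `ok` is the relation between the chosen successor and
the next node; it is `<+:` for Miller forcing and `=` for Laver forcing. -/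
structure Sys (Θ : Type u) (nd : Θ → List ℕ) (lt : Θ → Θ → Prop)
    (Λ : Set (tC 𝒯 A) → Θ → RA (tC 𝒯 A) → RA A) : Prop where
  wf : WellFounded lt
  add : ∀ D, sSup D = ⊤ → ∀ θ, AddM (rmap (tE 𝒯 A)) (Λ D θ)
  inc : ∀ D, sSup D = ⊤ → ∀ θ e, ¬ Inc (nd θ) → Λ D θ e = ⊥
  ini : ∀ D, sSup D = ⊤ → ∀ e, prj (rmap (tE 𝒯 A)) e ≤ ⨆ θ, Λ D θ e
  nod : ∀ D, sSup D = ⊤ → ∀ θ e (a : A) (τ : TX 𝒯 A), e ≤ kap (tE 𝒯 A a ⊓ tG τ) →
    Λ D θ e ≤ kap (a ⊓ τ.1 (nd θ))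
  nxt : ∀ D D', sSup D = ⊤ → sSup D' = ⊤ → ∀ θ e (E : Set (Pt (tC 𝒯 A))), MeasurableSet E →
    e ⊓ mkR E = ⊥ → ∀ m, Λ D θ e ≤
      (⨆ θ', ⨆ _ : lt θ' θ ∧ ∃ l, m ≤ l ∧ ok (nd θ ++ [l]) (nd θ'), Λ D θ' e) ⊔
      ⨆ θ', ⨆ _ : ∃ l, m ≤ l ∧ ok (nd θ ++ [l]) (nd θ'), ⨆ a : A, ⨆ τ : TX 𝒯 A,
        ⨆ _ : ∃ d ∈ D, tE 𝒯 A a ⊓ tG τ ≤ d, ⨆ ε : List Bool → tC 𝒯 A, ⨆ _ : Avd ε E,
          Λ D' θ' (e ⊓ kap (tE 𝒯 A a ⊓ tG τ) ⊓ cl ε)

/-- Systems exist. -/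
def HasSys : Prop := ∀ (A : Type u) [CompleteBooleanAlgebra A], ∃ (Θ : Type u)
  (nd : Θ → List ℕ) (lt : Θ → Θ → Prop) (Λ : Set (tC 𝒯 A) → Θ → RA (tC 𝒯 A) → RA A),
    Sys 𝒯 ok A Θ nd lt Λ

end

/-! ## Trees of paths -/

section

variable {A : Type u} [CompleteBooleanAlgebra A] {X : Type u}

/-- The properties of the tree of paths `{π : P π ∈ g}`.  A path is a list of states, the last state
is the head of the list. -/
structure PTr (ok : List ℕ → List ℕ → Prop) (nd : X → List ℕ) (ed : ℕ → X → X → A) (s0 : X)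
    (P : List X → A) (g : Ult A) : Prop where
  root : P [s0] ∈ g
  last : ∀ π, P π ∈ g → ∃ ρ, π = ρ ++ [s0]
  step : ∀ s' s π, P (s' :: s :: π) ∈ g → P (s :: π) ∈ g ∧ ed 0 s s' ∈ g
  uniq : ∀ s' s'' s π l, P (s' :: s :: π) ∈ g → P (s'' :: s :: π) ∈ g →
    nd s ++ [l] <+: nd s' → nd s ++ [l] <+: nd s'' → s' = s''
  inf : ∀ s π, P (s :: π) ∈ g → ∀ m, ∃ s' l, m ≤ l ∧ ok (nd s ++ [l]) (nd s') ∧
    P (s' :: s :: π) ∈ g
  lim : ∀ s π, P (s :: π) ∈ g → ∀ m, ∃ l0, ∀ s' l, l0 ≤ l → nd s ++ [l] <+: nd s' →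
    P (s' :: s :: π) ∈ g → ed m s s' ∈ g

/-- The hypotheses on states, good values and steps. -/
structure PHyp (ok : List ℕ → List ℕ → Prop) (nd : X → List ℕ) (gd : X → A)
    (ed : ℕ → X → X → A) : Prop where
  inc : ∀ s, gd s ≠ ⊥ → Inc (nd s)
  le : ∀ m s s', ed m s s' ≤ gd s'
  anti : ∀ m s s', ed (m + 1) s s' ≤ ed m s s'
  node : ∀ m s s', ed m s s' ≠ ⊥ → ∃ l, m ≤ l ∧ ok (nd s ++ [l]) (nd s')
  ex : ∀ m s, gd s ≤ ⨆ s', ed m s s'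

end

/-- A tree of the family `𝒯` is obtained from a tree of paths. -/
def Trs (𝒯 : Set (List ℕ) → Prop) (ok : List ℕ → List ℕ → Prop) : Prop :=
  ∀ (A : Type u) [CompleteBooleanAlgebra A] (X : Type u) [Countable X] (nd : X → List ℕ)
  (gd : X → A) (ed : ℕ → X → X → A), PHyp ok nd gd ed → ∀ s0 a, a ≤ gd s0 →
  ∃ (P : List X → A) (τ : TX 𝒯 A),
    (∀ᶠ g in ae A, a ∈ g → PTr ok nd ed s0 P g) ∧
    -- the generic branch
    (∀ᶠ h in ae (tC 𝒯 A), tE 𝒯 A a ⊓ tG τ ∈ h → ∀ g : Ult A, (∀ b, b ∈ g ↔ tE 𝒯 A b ∈ h) →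
      ∃ π : ℕ → List X, π 0 = [s0] ∧ (∀ n, ∃ s, π (n + 1) = s :: π n) ∧ (∀ n, P (π n) ∈ g) ∧
        ∀ s ρ, P (s :: ρ) ∈ g → (tND (nd s) ∈ h ↔ s :: ρ = π ρ.length)) ∧
    -- trees in the generic filter
    (∀ σ : TX 𝒯 A, ∀ᶠ h in ae (tC 𝒯 A), tE 𝒯 A a ⊓ tG τ ∈ h →
      ∀ g : Ult A, (∀ b, b ∈ g ↔ tE 𝒯 A b ∈ h) → ∀ s ρ, P (s :: ρ) ∈ g → tND (nd s) ∈ h →
        (∀ s' ρ', P (s' :: ρ') ∈ g → s :: ρ <:+ s' :: ρ' → σ.1 (nd s') ∈ g) → tG σ ∈ h) ∧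
    -- density
    (∀ r, r ≠ ⊥ → r ≤ tE 𝒯 A a ⊓ tG τ → ∀ n0, ∃ (s : X) (ρ : List X), n0 ≤ ρ.length ∧
      ∃ a', a' ≠ ⊥ ∧ a' ≤ a ∧ ∀ᶠ g in ae A, a' ∈ g → P (s :: ρ) ∈ g ∧
        ∀ m, ∃ s' l, m ≤ l ∧ ok (nd s ++ [l]) (nd s') ∧ P (s' :: s :: ρ) ∈ g ∧
          prj (tE 𝒯 A) (r ⊓ tND (nd s')) ∈ g)

/-! ## Codes -/

/-- A code of a finite sequence. -/
def Pc (t : List ℕ) : ℕ := t.foldl (fun a l => Nat.pair a (2 ^ (l + 1)) + 1) 0

/-- A code of a finite sequence of bits. -/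
def cd (ρ : List Bool) : ℕ := ρ.foldl (fun a b => 2 * a + if b then 1 else 0) 1

section

variable {𝒯 : Set (List ℕ) → Prop} {A : Type u} [CompleteBooleanAlgebra A]

/-- The name of the set of all points `(Pc t, cd ρ)` such that `t ++ [l]` is an initial segment of
the generic branch and `ρ` consists of the first `l` digits of `y`. -/
noncomputable def xr (y : ℕ → A) (n : ℕ) : tC 𝒯 A :=
  ⨆ t : List ℕ, ⨆ ρ : List Bool, ⨆ _ : n = Nat.pair (Pc t) (cd ρ),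
    tND (t ++ [ρ.length]) ⊓ tE 𝒯 A (pre y ρ)

/-- The Boolean value of: the map with approximations `F` maps `x` to `y`. -/
def apv (F : List Bool → List Bool → A) (x y : ℕ → A) : A :=
  ⨅ n : ℕ, ⨆ σ : List Bool, ⨆ τ : List Bool, ⨆ _ : τ.length = n, pre x σ ⊓ pre y τ ⊓ F σ τ

/-- `F` is consistent below `c`. -/
def Cons (c : A) (F : List Bool → List Bool → A) : Prop :=
  ∀ σ σ' τ τ', Cpb σ σ' → ¬ Cpb τ τ' → c ⊓ F σ τ ⊓ F σ' τ' = ⊥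

end

end Pool.Agent.Lib.MP_a78e1f_lc
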