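import Pool.Agent.Lib.MP_a78e1f_lc.T.Base

/-!
# Statements of the modules, part 2: tree forcings

The proofs are in `Paper.md`.
-/

universe u v w

open Cardinal Filter MeasureTheory

namespace Pool.Agent.Lib.MP_a78e1f_lc

open Pool.Agent.Lib.MP_100a6c_lc
open Pool.Agent.Lib.MP_c5d73d_lc.F (pr)
open Pool.Agent.Lib.MP_e6fef2_lc
open Pool.Agent.Lib.MP_6d445e_gt

/-! ## General tree forcings -/

/-- FAM: Miller, Laver and Sacks trees. -/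
def FamStatement : Prop := TFam IsMil ∧ TFam IsLav ∧ TFam IsSac

/-- GND: nodes of the generic branch. -/
def GndStatement : Prop := ∀ 𝒯 : Set (List ℕ) → Prop, TFam 𝒯 → ∀ (A : Type u)
  [CompleteBooleanAlgebra A], Nonempty (TX 𝒯 A) ∧ (tND [] : tC 𝒯 A) = ⊤ ∧
  (∀ t t', t <+: t' → (tND t' : tC 𝒯 A) ≤ tND t) ∧
  (∀ t t', ¬ Cmp t t' → (tND t : tC 𝒯 A) ⊓ tND t' = ⊥) ∧
  (∀ t, (tND t : tC 𝒯 A) = ⨆ k, tND (t ++ [k])) ∧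
  (∀ t, (∀ T, 𝒯 T → t ∉ T) → (tND t : tC 𝒯 A) = ⊥) ∧
  (∀ (τ : TX 𝒯 A) t, prj (tE 𝒯 A) (tG τ ⊓ tND t) = τ.1 t) ∧
  (∀ (τ : TX 𝒯 A) t, tE 𝒯 A (tst τ t) ⊓ tG τ ≤ tND t)

/-- GMX: conditions of the tree forcing. -/
def GmxStatement : Prop := ∀ 𝒯 : Set (List ℕ) → Prop, TFam 𝒯 → ∀ (A : Type u)
  [CompleteBooleanAlgebra A],
  -- restriction to a node
  (∀ (τ : TX 𝒯 A) t, ∃ τ' : TX 𝒯 A, tE 𝒯 A (τ.1 t) ⊓ tG τ' = tG τ ⊓ tND t ∧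
    τ.1 t ≤ tst τ' t ∧ τ.1 t ≤ (TQ 𝒯 A).le τ' τ ∧
    ∀ s, τ.1 t ⊓ τ'.1 s = τ.1 t ⊓ ⨆ _ : Cmp s t, τ.1 s) ∧
  -- density
  (∀ c : tC 𝒯 A, c ≠ ⊥ → ∃ (b : A) (τ : TX 𝒯 A), b ≠ ⊥ ∧ tE 𝒯 A b ⊓ tG τ ≤ c) ∧
  (∀ τ : TX 𝒯 A, prj (tE 𝒯 A) (tG τ) = ⊤) ∧
  -- mixing
  (∀ (T : Type u) (a : T → A) (τ : T → TX 𝒯 A), (∀ t t', t ≠ t' → a t ⊓ a t' = ⊥) →
    ∃ τ' : TX 𝒯 A, ∀ t s, a t ⊓ τ'.1 s = a t ⊓ (τ t).1 s) ∧
  (∀ (τ τ' : TX 𝒯 A) (a : A), (∀ s, a ⊓ τ'.1 s = a ⊓ τ.1 s) →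
    tE 𝒯 A a ⊓ tG τ' = tE 𝒯 A a ⊓ tG τ) ∧
  -- forcing
  (∀ (τ : TX 𝒯 A) (c : tC 𝒯 A) (a : A), a ≤ tfo τ c ↔ tE 𝒯 A a ⊓ tG τ ≤ c) ∧
  (∀ τ τ' : TX 𝒯 A, tfo τ (tG τ') = (TQ 𝒯 A).le τ τ') ∧
  -- measurable families of trees have names
  (∀ F : List ℕ → Ult A → Prop, (∀ t, MeasurableSet {g | F t g}) →
    (∀ᶠ g in ae A, 𝒯 {t | F t g}) → ∃ τ : TX 𝒯 A, ∀ᶠ g in ae A, ∀ t, τ.1 t ∈ g ↔ F t g)

/-- LPL: the map `lpL t`. -/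
def LplStatement : Prop := ∀ (A : Type u) [CompleteBooleanAlgebra A],
  (∀ t, AddM (tE IsLav A) (lpL t)) ∧ (∀ c : tC IsLav A, prj (tE IsLav A) c = ⨆ t, lpL t c) ∧
  (∀ t (c : tC IsLav A), lpL t c = ⨅ m, ⨆ k, ⨆ _ : m ≤ k, lpL (t ++ [k]) c) ∧
  (∀ t (c : tC IsLav A), lpL t c = lpL t (c ⊓ tND t)) ∧
  (∀ t (τ : TX IsLav A), lpL t (tG τ) ≤ τ.1 t) ∧
  (∀ t (c : tC IsLav A), ¬ Inc t → lpL t c = ⊥) ∧
  -- maximum principle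
  (∀ t (c : tC IsLav A), ∃ τ : TX IsLav A, lpL t c ≤ stL τ t ⊓ tfo τ c)

/-- LTREE: selection of a tree of paths. -/
def LtreeStatement : Prop := ∀ ok : List ℕ → List ℕ → Prop, (∀ t t', ok t t' → t <+: t') →
  ∀ (A : Type u) [CompleteBooleanAlgebra A] (X : Type u) [Countable X] (nd : X → List ℕ)
  (gd : X → A) (ed : ℕ → X → X → A), PHyp ok nd gd ed → ∀ s0 a, a ≤ gd s0 →
    ∃ P : List X → A, ∀ᶠ g in ae A, a ∈ g → PTr ok nd ed s0 P g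

/-- TRM: trees of paths for Miller forcing. -/
def TrmStatement : Prop := Trs.{u} IsMil fun t t' => t <+: t'

/-- TRL: trees of paths for Laver forcing. -/
def TrlStatement : Prop := Trs.{u} IsLav fun t t' => t = t'

/-! ## Systems -/

/-- RKA: the rank. -/
def RkaStatement : Prop := ∀ (R : Type u) [CompleteBooleanAlgebra R],
  ∃ (O : Type u) (_ : LinearOrder O) (_ : WellFoundedLT O) (_ : Nonempty O), ∀ p : List ℕ → R,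
    ∃ Q : O → List ℕ → R,
      (∀ α t, Q α t = p t ⊔ ⨆ β, ⨆ _ : β < α, ⨅ m, ⨆ l, ⨆ _ : m ≤ l, Q β (t ++ [l])) ∧
      ∀ t, ⨅ m : ℕ, ⨆ l, ⨆ _ : m ≤ l, ⨆ α, Q α (t ++ [l]) ≤ ⨆ α, Q α t

/-- RKB: positive conditions of Laver forcing with random forcing meet dense sets. -/
def RkbStatement : Prop := ∀ (A : Type u) [CompleteBooleanAlgebra A] (D : Set (tC IsLav A)),
  sSup D = ⊤ → ∀ (e : RA (tC IsLav A)) (W : List ℕ → RA A),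
    (∀ t, W t ≤ ⨆ m : ℕ, ⨅ l, ⨅ _ : m ≤ l, W (t ++ [l])) →
    (∀ t a (τ : TX IsLav A), (∃ d ∈ D, tE IsLav A a ⊓ tG τ ≤ d) →
      W t ⊓ piR (tE IsLav A) (lpL t) (e ⊓ kap (tE IsLav A a ⊓ tG τ)) = ⊥) →
    ∀ t, W t ⊓ piR (tE IsLav A) (lpL t) e = ⊥

/-- SYSM: the system for Miller forcing. -/
def SysmStatement : Prop := HasSys.{u} IsMil fun t t' => t <+: t'

/-- SYSL: the system for Laver forcing. -/
def SyslStatement : Prop := HasSys.{u} IsLav fun t t' => t = t'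

/-- PRXT: tree forcings with systems preserve good pairs. -/
def PrxtStatement : Prop := ∀ (𝒯 : Set (List ℕ) → Prop) (ok : List ℕ → List ℕ → Prop),
  TFam 𝒯 → (∀ t t', ok t t' → t <+: t') → Trs.{u} 𝒯 ok → HasSys.{u} 𝒯 ok →
    ∀ (A : Type u) [CompleteBooleanAlgebra A], PRX (tE 𝒯 A)

/-! ## The first step -/

/-- COD: codes. -/
def CodStatement : Prop := Function.Injective Pc ∧ Function.Injective cd ∧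
  (∀ ρ, cd ρ < 2 ^ (ρ.length + 1)) ∧ (∀ t l, Pc (t ++ [l]) = Nat.pair (Pc t) (2 ^ (l + 1)) + 1) ∧
  (∀ t l, Pc t < Pc (t ++ [l])) ∧ (∀ t l, 2 ^ (l + 1) < Pc (t ++ [l])) ∧
  (∀ t, t.length ≤ Pc t) ∧ (∀ t t', t <+: t' → Pc t ≤ Pc t')

/-- PROM: a name of a tree of finite width which contains the limits of the finite sets `S k`. -/
def PromStatement : Prop := ∀ (A : Type u) [CompleteBooleanAlgebra A] (K : Type w)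
  (S : K → Finset (List Bool)) (l : K → ℕ) (R : ℕ) (φ : K → A),
  (∀ k, ∀ ρ ∈ S k, ρ.length = l k) → (∀ k, (S k).card ≤ R) →
  ∃ v : List Bool → A,
    (∀ᶠ g in ae A, ∀ m, {ρ : List Bool | ρ.length = m ∧ v ρ ∈ g}.encard ≤ R) ∧
    (∀ ρ ρ', ρ <+: ρ' → v ρ' ≤ v ρ) ∧
    ∀ p : A, (∀ m, p ≤ ⨆ k, ⨆ _ : m ≤ l k, φ k) →
      ∀ m, p ≤ ⨆ k, ⨆ _ : m ≤ l k, φ k ⊓ ⨅ ρ ∈ S k, v (ρ.take m)

/-- BRN: names of the branches of a tree of finite width. -/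
def BrnStatement : Prop := ∀ (A : Type u) [CompleteBooleanAlgebra A] (v : List Bool → A)
  (R : ℕ), (∀ᶠ g in ae A, ∀ m, {ρ : List Bool | ρ.length = m ∧ v ρ ∈ g}.encard ≤ R) →
  ∃ ψ : ℕ → ℕ → A, ∀ᶠ g in ae A, ∀ x : Cs, (∀ m, v (res x m) ∈ g) → ∃ j, x = vx (ψ j) g

/-- The conclusion of ST for the family `𝒯`. -/
def StS (𝒯 : Set (List ℕ) → Prop) : Prop := ∀ (A : Type u) [CompleteBooleanAlgebra A],
  ∀ᶠ N in club, ∀ c : tC 𝒯 A, In N c → ∀ a : A, a ≠ ⊥ → a ≤ gen A N ⊓ prj (tE 𝒯 A) c →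
    ∃ p, p ≠ ⊥ ∧ p ≤ c ∧ p ≤ tE 𝒯 A a ∧ ∃ X Y : ℕ → tC 𝒯 A, p ≤ gcX N X Y ∧
      ∀ y : ℕ → A, p ⊓ ⨆ n, disn n (xr y) Y ≤ ⨆ ψ : ℕ → A, ⨆ _ : In N ψ, tE 𝒯 A (eqr y ψ)

/-- ST: a random point `X` and a set `Y` which separates the new slaloms from the old points. -/
def StStatement : Prop := ∀ (𝒯 : Set (List ℕ) → Prop) (ok : List ℕ → List ℕ → Prop),
  TFam 𝒯 → (∀ t t', ok t t' → t <+: t') → Trs.{u} 𝒯 ok → HasSys.{u} 𝒯 ok → StS.{u} 𝒯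

/-- KEYN: there is no embedding of the new points into the old points. -/
def KeynStatement : Prop := ∀ 𝒯 : Set (List ℕ) → Prop, TFam 𝒯 → StS.{u} 𝒯 →
  ∀ (A B : Type u) [CompleteBooleanAlgebra A] [CompleteBooleanAlgebra B] (φ : tC 𝒯 A → B),
  Prp A → IsCE φ → PRX φ → ∀ c : B, c ≠ ⊥ → ∀ F G : List Bool → List Bool → B, Cons c F → Cons c G →
    ¬ ∀ X : ℕ → tC 𝒯 A, c ≤ ⨆ y : ℕ → A,
      apv F (fun n => φ (X n)) (fun n => φ (tE 𝒯 A (y n))) ⊓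
      apv G (fun n => φ (tE 𝒯 A (y n))) (fun n => φ (X n))

end Pool.Agent.Lib.MP_a78e1f_lc
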